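import Pool.Agent.P8H97.GO.AdpA

/-!
# Project GO, package ADP: the maps `a z ^ Q + b z + c`
-/

namespace Pool.Agent.P8H97.GO

open Pool.Agent.P8H91.GO Polynomial

universe u v

/-- Conjugation does not lose preperiodic points. -/
theorem pre_le {L K : Type u} [Field L] [Field K] (f : L[X]) (g : K[X]) (φ : L → K)
    (hφ : Function.Injective φ) (h : ∀ z, φ (f.eval z) = g.eval (φ z)) :
    (Pre f).encard ≤ (Pre g).encard := by
  rw [← hφ.encard_image]
  apply Set.encard_le_encard
  rintro _ ⟨z, hz, rfl⟩
  have hit : ∀ m : ℕ, (fun x => g.eval x)^[m] (φ z) = φ ((fun x => f.eval x)^[m] z) := by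
    intro m
    induction m with
    | zero => rfl
    | succ m ih => rw [Function.iterate_succ_apply', ih, Function.iterate_succ_apply', h]
  have hz' : (Set.range fun m : ℕ => (fun x => f.eval x)^[m] z).Finite := hz
  have hsub : (Set.range fun m : ℕ => (fun x => g.eval x)^[m] (φ z)) ⊆
      φ '' (Set.range fun m : ℕ => (fun x => f.eval x)^[m] z) := by
    rintro _ ⟨m, rfl⟩
    exact ⟨_, ⟨m, rfl⟩, (hit m).symm⟩
  exact (hz'.image φ).subset hsub

/-- The auxiliary extension: a `(Q - 1)`-th root of `a` and a fixed point. -/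
theorem exists_ext {L : Type u} [Field L] (Q : ℕ) (hQ : 2 ≤ Q) (a b c : L) (ha : a ≠ 0) :
    ∃ (K : Type u) (_ : Field K) (_ : Algebra L K) (w v : K), FiniteDimensional L K ∧
      Module.finrank L K ≤ (Q - 1) * Q ∧ w ^ (Q - 1) = algebraMap L K a ∧
      algebraMap L K a * v ^ Q + algebraMap L K b * v + algebraMap L K c = v := by
  let Ω := AlgebraicClosure L
  obtain ⟨w, hw⟩ := IsAlgClosed.exists_pow_nat_eq (algebraMap L Ω a) (show 0 < Q - 1 by omega)
  let P : L[X] := C a * X ^ Q + C (b - 1) * X + C c
  have hPd : P.natDegree = Q := by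
    have h1 : (C (b - 1) * X + C c : L[X]).natDegree ≤ 1 := by
      compute_degree
    have h2 : (C a * X ^ Q : L[X]).natDegree = Q := natDegree_C_mul_X_pow Q a ha
    have h3 : P = C a * X ^ Q + (C (b - 1) * X + C c) := by
      change C a * X ^ Q + C (b - 1) * X + C c = _
      ring
    rw [h3, natDegree_add_eq_left_of_natDegree_lt (by rw [h2]; omega), h2]
  have hP0 : P ≠ 0 := by
    intro h
    rw [h, natDegree_zero] at hPd
    omega
  obtain ⟨v, hv⟩ := IsAlgClosed.exists_aeval_eq_zero Ω P (by
    rw [degree_eq_natDegree hP0, hPd]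
    exact_mod_cast (by omega : Q ≠ 0))
  let E1 : IntermediateField L Ω := IntermediateField.adjoin L {w}
  let E2 : IntermediateField L Ω := IntermediateField.adjoin L {v}
  let K := (E1 ⊔ E2 : IntermediateField L Ω)
  have hw' : w ∈ K := (le_sup_left : E1 ≤ K) (IntermediateField.mem_adjoin_simple_self _ _)
  have hv' : v ∈ K := (le_sup_right : E2 ≤ K) (IntermediateField.mem_adjoin_simple_self _ _)
  have hwi : IsIntegral L w := by
    refine ⟨X ^ (Q - 1) - C a, monic_X_pow_sub_C a (by omega), ?_⟩
    rw [← aeval_def]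
    simp [hw]
  have hvi : IsIntegral L v := isAlgebraic_iff_isIntegral.mp ⟨P, hP0, hv⟩
  have f1 : FiniteDimensional L E1 := IntermediateField.adjoin.finiteDimensional hwi
  have f2 : FiniteDimensional L E2 := IntermediateField.adjoin.finiteDimensional hvi
  have r1 : Module.finrank L E1 ≤ Q - 1 := by
    rw [IntermediateField.adjoin.finrank hwi]
    have := natDegree_le_of_dvd (minpoly.dvd L w (p := X ^ (Q - 1) - C a) (by simp [hw]))
      (monic_X_pow_sub_C a (by omega)).ne_zero
    rwa [natDegree_X_pow_sub_C] at this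
  have r2 : Module.finrank L E2 ≤ Q := by
    rw [IntermediateField.adjoin.finrank hvi]
    have := natDegree_le_of_dvd (minpoly.dvd L v hv) hP0
    rwa [hPd] at this
  refine ⟨K, inferInstance, inferInstance, ⟨w, hw'⟩, ⟨v, hv'⟩, ?_, ?_, ?_, ?_⟩
  · exact IntermediateField.finiteDimensional_sup E1 E2
  · exact le_trans (IntermediateField.finrank_sup_le E1 E2) (Nat.mul_le_mul r1 r2)
  · apply Subtype.ext
    exact hw
  · apply Subtype.ext
    change algebraMap L Ω a * v ^ Q + algebraMap L Ω b * v + algebraMap L Ω c = v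
    have : aeval v P = algebraMap L Ω a * v ^ Q + (algebraMap L Ω b - 1) * v +
        algebraMap L Ω c := by
      simp [P]
    rw [this] at hv
    linear_combination hv

theorem adp (hG : S_GEN.{u, v}) : S_ADP.{u, v} := by
  intro p m hp hm
  haveI : Fact p.Prime := ⟨hp⟩
  have hp2 : 2 ≤ p := hp.two_le
  have hQ : 2 ≤ p ^ m := le_trans hp2 (Nat.le_self_pow (by omega) p)
  obtain ⟨N, hN⟩ := hG (ZMod p) (famF p m) 1 1 (p ^ m - 1) (expanding_famF p m hm)
  refine ⟨fun n => (Finset.range (n * ((p ^ m - 1) * p ^ m) + 1)).sup N, ?_⟩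
  intro k L _ _ _ _ t ht hfd a b c ha hb
  obtain ⟨K, _, _, w, v, hKfd, hKr, hw, hv⟩ := exists_ext (p ^ m) hQ a b c ha
  letI : Algebra k K := ((algebraMap L K).comp (algebraMap k L)).toAlgebra
  haveI : IsScalarTower k L K := IsScalarTower.of_algebraMap_eq fun x => rfl
  haveI : CharP K p := charP_of_injective_algebraMap (algebraMap L K).injective p
  letI : Algebra (ZMod p) K := ZMod.algebra K p
  have htr : ∀ x : L, Transcendental k x → Transcendental k (algebraMap L K x) := by
    intro x hx h
    exact hx ((isAlgebraic_algebraMap_iff (algebraMap L K).injective).mp h)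
  have hrk := tower_rank (k := k) (L := L) (K := K) t
  have hpos : 0 < Module.finrank (IntermediateField.adjoin k {algebraMap L K t}) K := by
    rw [hrk]
    exact Nat.mul_pos Module.finrank_pos Module.finrank_pos
  have hfdK : FiniteDimensional (IntermediateField.adjoin k {algebraMap L K t}) K :=
    Module.finite_of_finrank_pos hpos
  have hmain := hN k K (algebraMap L K t) (algebraMap L K b) (htr t ht) (htr b hb) hfdK
  rw [fam_famF] at hmain
  have hw0 : w ≠ 0 := by
    intro h
    rw [h, zero_pow (by omega)] at hw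
    exact ha ((map_eq_zero_iff _ (algebraMap L K).injective).mp hw.symm)
  have hwQ : w ^ p ^ m = algebraMap L K a * w := by
    rw [← hw, ← pow_succ]
    congr 1
    omega
  have hpre : (Pre (C a * X ^ p ^ m + C b * X + C c)).encard ≤
      (Pre (X ^ p ^ m + C (algebraMap L K b) * X : K[X])).encard := by
    apply pre_le _ _ (fun z => w * (algebraMap L K z - v))
    · intro x y hxy
      have h1 : algebraMap L K x - v = algebraMap L K y - v := mul_left_cancel₀ hw0 hxy
      exact (algebraMap L K).injective (sub_left_inj.mp h1)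
    · intro z
      simp only [eval_add, eval_mul, eval_C, eval_pow, eval_X, map_add, map_mul, map_pow]
      rw [mul_pow, sub_pow_char_pow, hwQ]
      linear_combination (w) * hv
  refine le_trans hpre (le_trans hmain ?_)
  have hle : N (Module.finrank (IntermediateField.adjoin k {algebraMap L K t}) K) ≤
      (Finset.range (Module.finrank (IntermediateField.adjoin k {t}) L *
        ((p ^ m - 1) * p ^ m) + 1)).sup N := by
    apply Finset.le_sup
    rw [Finset.mem_range, hrk]
    have := Nat.mul_le_mul_left (Module.finrank (IntermediateField.adjoin k {t}) L) hKr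
    omega
  exact_mod_cast hle

end Pool.Agent.P8H97.GO
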