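import Pool.Agent.P8H91.GO.Stm

/-!
# Project GO, package ADP, first part
-/

namespace Pool.Agent.P8H97.GO

open Pool.Agent.P8H91.GO Polynomial

universe u v

/-- The degree over a simple transcendental extension in a tower. -/
theorem tower_rank {k : Type v} {L K : Type u} [Field k] [Field L] [Field K] [Algebra k L]
    [Algebra L K] [Algebra k K] [IsScalarTower k L K] (t : L) :
    Module.finrank (IntermediateField.adjoin k {algebraMap L K t}) K =
      Module.finrank (IntermediateField.adjoin k {t}) L * Module.finrank L K := by
  let φ : L →ₐ[k] K := IsScalarTower.toAlgHom k L K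
  let F := IntermediateField.adjoin k {t}
  have hmap : F.map φ = IntermediateField.adjoin k {algebraMap L K t} := by
    rw [IntermediateField.adjoin_map, Set.image_singleton]
    rfl
  have h1 : Module.finrank F L * Module.finrank L K = Module.finrank F K :=
    Module.finrank_mul_finrank F L K
  rw [← hmap, h1]
  symm
  let i : F ≃+* F.map φ := (IntermediateField.equivMap F φ).toRingEquiv
  exact Algebra.finrank_eq_of_equiv_equiv i (RingEquiv.refl K) (by ext x; rfl)

/-- The family `z ^ Q + T z`. -/
noncomputable def famF (p m : ℕ) : (ZMod p)[X][X] := X ^ p ^ m + C X * X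

theorem fam_famF (p m : ℕ) [Fact p.Prime] {K : Type u} [Field K] [Algebra (ZMod p) K] (τ : K) :
    fam (famF p m) 1 τ = X ^ p ^ m + C τ * X := by
  unfold fam famF
  simp

theorem expanding_famF (p m : ℕ) [hp : Fact p.Prime] (hm : 1 ≤ m) :
    Expanding (famF p m) 1 1 (p ^ m - 1) := by
  have hp2 : 2 ≤ p := hp.out.two_le
  have hQ : 2 ≤ p ^ m := le_trans hp2 (Nat.le_self_pow (by omega) p)
  have hcoeff : ∀ i : ℕ, (famF p m).coeff i =
      (if i = p ^ m then 1 else 0) + (if i = 1 then X else 0) := by
    intro i
    unfold famF
    rw [coeff_add, coeff_X_pow, coeff_C_mul, coeff_X]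
    simp [eq_comm]
  have hdeg : (famF p m).natDegree = p ^ m := by
    unfold famF
    have h1 : (C (X : (ZMod p)[X]) * X).natDegree < ((X : (ZMod p)[X][X]) ^ p ^ m).natDegree := by
      rw [natDegree_X_pow, natDegree_C_mul_X _ X_ne_zero]
      omega
    rw [natDegree_add_eq_left_of_natDegree_lt h1, natDegree_X_pow]
  have hlead : (famF p m).leadingCoeff = 1 := by
    unfold leadingCoeff
    rw [hdeg, hcoeff, if_pos rfl, if_neg (by omega), add_zero]
  have he : ((p ^ m - 1 : ℕ) : ℤ) = (p : ℤ) ^ m - 1 := by
    push_cast [Nat.cast_sub (show 1 ≤ p ^ m by omega)]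
    ring
  have hQ' : (2 : ℤ) ≤ (p : ℤ) ^ m := by exact_mod_cast hQ
  have hLF : leadForm (famF p m) 1 (p ^ m - 1) = X ^ p ^ m + X := by
    unfold leadForm
    rw [hdeg, hlead]
    have hz : ∀ i ∈ Finset.range (p ^ m + 1), i ≠ p ^ m → i ≠ 1 →
        (∑ j ∈ ((famF p m).coeff i).support,
          if ((p ^ m - 1 : ℕ) : ℤ) * j = ((p ^ m - 1 : ℕ) : ℤ) * ((1 : (ZMod p)[X]).natDegree : ℤ) +
            1 * (((p ^ m : ℕ) : ℤ) - i) then
          (C (((famF p m).coeff i).coeff j) * X ^ i : (ZMod p)[X]) else 0) = 0 := by
      intro i _ h1 h2
      have : (famF p m).coeff i = 0 := by rw [hcoeff, if_neg h1, if_neg h2, add_zero]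
      rw [this]
      simp
    have hsub : ({1, p ^ m} : Finset ℕ) ⊆ Finset.range (p ^ m + 1) := by
      intro i hi
      simp only [Finset.mem_insert, Finset.mem_singleton] at hi
      rw [Finset.mem_range]
      omega
    rw [← Finset.sum_subset hsub]
    · rw [Finset.sum_pair (by omega)]
      have c1 : (famF p m).coeff 1 = X := by
        rw [hcoeff, if_neg (by omega), if_pos rfl, zero_add]
      have c2 : (famF p m).coeff (p ^ m) = 1 := by
        rw [hcoeff, if_pos rfl, if_neg (by omega), add_zero]
      rw [c1, c2]
      have s1 : (X : (ZMod p)[X]).support = {1} := by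
        rw [← pow_one (X : (ZMod p)[X]), support_X_pow]
      have s2 : (1 : (ZMod p)[X]).support = {0} := by
        have := support_X_pow (R := ZMod p) 0
        rwa [pow_zero] at this
      rw [s1, s2, Finset.sum_singleton, Finset.sum_singleton, if_pos, if_pos]
      · simp
        ring
      · simp
      · rw [natDegree_one, he]
        push_cast
        ring
    · intro i hi hi'
      simp only [Finset.mem_insert, Finset.mem_singleton, not_or] at hi'
      exact hz i hi hi'.2 hi'.1
  refine ⟨by omega, by rw [hdeg]; exact hQ, one_ne_zero, ?_, ?_, ?_⟩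
  · intro i j hij
    rw [hdeg, hlead, natDegree_one, he]
    rw [hcoeff] at hij
    push_cast
    by_cases h1 : i = p ^ m
    · rw [if_pos h1, if_neg (by omega), add_zero, coeff_one] at hij
      have hj : j = 0 := by
        by_contra h
        rw [if_neg (by omega)] at hij
        exact hij rfl
      subst hj
      subst h1
      push_cast
      ring_nf
      rfl
    · rw [if_neg h1, zero_add] at hij
      by_cases h2 : i = 1
      · rw [if_pos h2, coeff_X] at hij
        have hj : j = 1 := by
          by_contra h
          rw [if_neg (by omega)] at hij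
          exact hij rfl
        subst hj
        subst h2
        push_cast
        linarith
      · rw [if_neg h2] at hij
        exact absurd (coeff_zero j) hij
  · rw [hdeg, hlead]
    push_cast
    simp only [natDegree_one]
    push_cast
    linarith
  · rw [hLF]
    unfold Polynomial.Separable
    have : derivative ((X : (ZMod p)[X]) ^ p ^ m + X) = 1 := by
      rw [derivative_add, derivative_X_pow, derivative_X]
      have : ((p ^ m : ℕ) : ZMod p) = 0 := by
        rw [Nat.cast_pow, ZMod.natCast_self, zero_pow (by omega)]
      rw [this]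
      simp
    rw [this]
    exact isCoprime_one_right

end Pool.Agent.P8H97.GO
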