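import Pool.Agent.P8H91.GO.Stm

/-!
# Project GO, package CMP: compositum with the algebraic closure of the field of constants
-/

namespace Pool.Agent.P8H97.GO

open Pool.Agent.P8H91.GO Polynomial

universe u v

/-- The degree does not grow in a compositum. -/
theorem comp_rank {F L E K : Type u} [Field F] [Field L] [Field E] [Field K] [Algebra F L]
    [Algebra F E] [Algebra F K] [Algebra L K] [Algebra E K] [IsScalarTower F L K]
    [IsScalarTower F E K] [FiniteDimensional F L]
    (htop : IntermediateField.adjoin E (Set.range (algebraMap L K)) = ⊤) :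
    FiniteDimensional E K ∧ Module.finrank E K ≤ Module.finrank F L := by
  let φ : L →ₐ[F] K := IsScalarTower.toAlgHom F L K
  have hfr : ((φ.fieldRange : IntermediateField F K) : Set K) = Set.range (algebraMap L K) := by
    ext x
    simp [φ]
  let e : L ≃ₐ[F] φ.fieldRange := AlgEquiv.ofInjectiveField φ
  haveI hfd : FiniteDimensional F φ.fieldRange := e.toLinearEquiv.finiteDimensional
  have h1 := IntermediateField.adjoin_rank_le_of_isAlgebraic_right (E := E) φ.fieldRange
  rw [hfr, htop, IntermediateField.rank_top'] at h1
  have h2 : Module.rank F φ.fieldRange = Module.rank F L := e.toLinearEquiv.rank_eq.symm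
  rw [h2] at h1
  have h3 : Module.rank F L < Cardinal.aleph0 := Module.rank_lt_aleph0 F L
  refine ⟨Module.rank_lt_aleph0_iff.mp (lt_of_le_of_lt h1 h3), ?_⟩
  exact Cardinal.toNat_le_toNat h1 h3

theorem cmp : S_CMP.{u, v} := by
  intro k L _ _ _ t τ ht hτ hfd
  let Ω := AlgebraicClosure L
  let k' := algebraicClosure k Ω
  let L' : IntermediateField k' Ω := IntermediateField.adjoin k' (Set.range (algebraMap L Ω))
  have hmem : ∀ x : L, algebraMap L Ω x ∈ L' := fun x =>
    IntermediateField.subset_adjoin _ _ ⟨x, rfl⟩
  let j : L →+* L' := (algebraMap L Ω).codRestrict L' hmem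
  have hj : ∀ x : L, algebraMap L' Ω (j x) = algebraMap L Ω x := fun x => rfl
  have htr : ∀ x : L, Transcendental k x → Transcendental k' (j x) := by
    intro x hx hal
    have h1 : Transcendental k (algebraMap L Ω x) := by
      intro h
      exact hx ((isAlgebraic_algebraMap_iff (algebraMap L Ω).injective).mp h)
    have h2 : Transcendental k' (algebraMap L Ω x) := h1.algebraicClosure
    apply h2
    rw [← hj]
    exact (isAlgebraic_algebraMap_iff (algebraMap L' Ω).injective).mpr hal
  have hconst : ∀ x : L, IsAlgebraic k x → ∃ c : k', algebraMap k' L' c = j x := by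
    intro x hx
    have h1 : algebraMap L Ω x ∈ algebraicClosure k Ω := by
      rw [mem_algebraicClosure_iff]
      exact hx.algebraMap
    exact ⟨⟨_, h1⟩, Subtype.ext rfl⟩
  let F : IntermediateField k L := IntermediateField.adjoin k {t}
  let E : IntermediateField k' L' := IntermediateField.adjoin k' {j t}
  have hFE : ∀ x : F, j x ∈ E := by
    rintro ⟨x, hx⟩
    change j x ∈ E
    induction hx using IntermediateField.adjoin_induction with
    | mem y hy =>
      rw [Set.mem_singleton_iff] at hy
      rw [hy]
      exact IntermediateField.mem_adjoin_simple_self _ _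
    | algebraMap a =>
      obtain ⟨c, hc⟩ := hconst (algebraMap k L a) (isAlgebraic_algebraMap a)
      rw [← hc]
      exact E.algebraMap_mem c
    | add y z _ _ hy hz => rw [map_add]; exact add_mem hy hz
    | mul y z _ _ hy hz => rw [map_mul]; exact mul_mem hy hz
    | inv y _ hy => rw [map_inv₀]; exact inv_mem hy
  letI a1 : Algebra F E := RingHom.toAlgebra ((j.comp (algebraMap F L)).codRestrict E hFE)
  letI a2 : Algebra F L' := RingHom.toAlgebra (j.comp (algebraMap F L))
  letI a3 : Algebra L L' := RingHom.toAlgebra j
  haveI t1 : IsScalarTower F L L' := IsScalarTower.of_algebraMap_eq fun x => rfl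
  haveI t2 : IsScalarTower F E L' := IsScalarTower.of_algebraMap_eq fun x => rfl
  have htop : IntermediateField.adjoin E (Set.range (algebraMap L L')) = ⊤ := by
    rw [eq_top_iff]
    rintro ⟨x, hx⟩ -
    induction hx using IntermediateField.adjoin_induction with
    | mem y hy =>
      obtain ⟨z, rfl⟩ := hy
      exact IntermediateField.subset_adjoin _ _ ⟨z, rfl⟩
    | algebraMap a =>
      have : algebraMap k' L' a ∈ E := E.algebraMap_mem a
      exact (IntermediateField.adjoin E (Set.range (algebraMap L L'))).algebraMap_mem ⟨_, this⟩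
    | add y z hy' hz' hy hz => exact add_mem hy hz
    | mul y z hy' hz' hy hz => exact mul_mem hy hz
    | inv y hy' hy => exact inv_mem hy
  have hfd' : FiniteDimensional F L := hfd
  have hAB := @comp_rank F L E L' _ _ _ _ _ a1 a2 a3 _ t1 t2 hfd' htop
  obtain ⟨hA, hB⟩ := hAB
  have hcl : IsAlgClosed k' := (algebraicClosure.isAlgClosure k Ω).isAlgClosed
  exact ⟨k', L', inferInstance, hcl, inferInstance, inferInstance, j, htr t ht, htr τ hτ, hA, hB,
    hconst⟩

end Pool.Agent.P8H97.GO
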